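import Mathlib
import Pool.Agent.H635.UT.Dbl

/-!
# MP_6cb7ce_lc, Q1: an untranscendable type `φ` with `φ ≡ φ 2 ≡ 2 φ` and `φ ≢ φ²` from a minimal
type `λ` of size `ℵ₁` with `λ ≡ λ 2 ≡ 2 λ`, and from `♢`

Sketch. `♢` gives a linear order `L` of size `ℵ₁` in which neither `ω₁` nor its reverse embeds, with
the following property: if `S γ`, for `γ < ω₁`, is a decreasing sequence of uncountable subsets of
`L`, and `β : L → ω₁` is any map, then there is a strictly increasing map `F` from `L` to `L` with
`F s ∈ S (β s)` for all `s`. (The nodes of the tree of `L` that have, for all `γ`, extensions in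
`S γ` contain all the sequences `t ⌢ gⁿ(v)`, see MP_65c32d_lc.) The property also follows if `L` embeds in each of its uncountable subsets and
`L²` embeds in `L`: choose distinct `k γ ∈ S γ`, an embedding `G` of `L` into the set of the `k γ`,
and let `F s = G (q (s, y))`, where `q` embeds `L²` in `L` and `y` is such that `G (q (s, y)) = k γ`
with `γ ≥ β s`. For a minimal `L`, `L²` embeds in `L` if `L 2` and `2 L` do: choose a set `K` of
representatives for the relation that only countably many points lie between `x` and `y`, embed `2 L` in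
`K`, and `L` in the intervals between the images of the two points over `s`. Let `α : L → ω₁` be injective, and
let `X` be obtained from `L` by replacing each `s` by the regular cardinal `κ s = ℵ_(α s + 2)`. For
`C ⊆ X` let `C s` be the part of `C` over `s`. By the property of `L`, if for all `γ < ω₁` there
are uncountably many `s` with `|C s| ≥ ℵ_(γ + 2)`, then `X` embeds in `C`. This gives `X 2 ≤ X` and
`2 X ≤ X`. Suppose that `X` embeds in `A B`, where `A, B ⊆ X`. By the pigeonhole principle, for each
`s` there is `r` with `|B r| ≥ κ s` or `|A r| ≥ κ s`. If `X` embeds neither in `A` nor in `B`, then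
only countably many `r` are possible for large `s`, and each of them for countably many `s` only, a
contradiction. If `X²` embeds in `X`, then by the pigeonhole principle one of the copies of `X` is
mapped into the part over one point `u`, which has size `κ u`; but `|X| > κ u`.
-/

set_option autoImplicit false

namespace Pool.Agent.Results.MP_6cb7ce_lc.UntranscendableFromDiamond

open Set

/-- The linear order `ω₁`. -/
abbrev Om : Type := (Ordinal.omega 1 : Ordinal.{0}).ToType

/-- The principle `♢`: there are sets `A α ⊆ α`, for `α < ω₁`, such that for every `X ⊆ ω₁` the set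
of all `α` with `X ∩ α = A α` is stationary. -/
def Diamond : Prop :=
  ∃ A : Om → Set Om, (∀ α, A α ⊆ Iio α) ∧ ∀ X : Set Om, IsStationary {α : Om | X ∩ Iio α = A α}

/-- `X` is untranscendable: whenever `X` embeds in the product `A B` (that is, `B` copies of `A`) of
two suborders `A`, `B` of `X`, then it embeds in `A` or in `B`. The order `A B` is `B ×ₗ A`. -/
def Untranscendable (X : Type) [LinearOrder X] : Prop :=
  ∀ A B : Set X, Nonempty (X ↪o (B ×ₗ A)) → Nonempty (X ↪o A) ∨ Nonempty (X ↪o B)

/-- `X` and `Y` are equimorphic: each embeds in the other. -/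
def Equimorphic (X Y : Type) [LinearOrder X] [LinearOrder Y] : Prop :=
  Nonempty (X ↪o Y) ∧ Nonempty (Y ↪o X)

/-- There is an untranscendable order `X` which is equimorphic to `X 2` (two copies of `X`) and to
`2 X` (each point doubled), but not to `X²`. -/
def PositiveAnswer : Prop := ∃ (X : Type) (_ : LinearOrder X), Untranscendable X ∧
    Equimorphic X (Fin 2 ×ₗ X) ∧ Equimorphic X (X ×ₗ Fin 2) ∧ ¬ Equimorphic X (X ×ₗ X)

theorem main {L : Type} [LinearOrder L] (hL : H635.UT.LMP L) (hLu : Uncountable L)
    (α : L → H635.Dia.W) (hα : Function.Injective α)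
    (hmid : ∃ c : L, ¬ {s : L | s < c}.Countable ∧ ¬ {s : L | c < s}.Countable) :
    PositiveAnswer := by
  refine ⟨H635.UT.XX α, inferInstance, ?_, ⟨?_, ?_⟩, ⟨?_, ?_⟩, ?_⟩
  · rintro A B ⟨f⟩
    exact H635.UT.untranscendable hL hLu hα f
  · exact ⟨OrderEmbedding.ofStrictMono (fun x => toLex (0, x)) fun x y hxy =>
      Prod.Lex.right _ hxy⟩
  · exact H635.UT.two_left hL hα hmid
  · exact ⟨OrderEmbedding.ofStrictMono (fun x => toLex (x, 0)) fun x y hxy =>
      Prod.Lex.left _ _ hxy⟩
  · exact H635.UT.two_right hL hLu hα
  · rintro ⟨-, ⟨f⟩⟩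
    exact (H635.UT.no_square hLu hα).false f

/-- (1) If there is a linear order `L` of size `ℵ₁` which embeds in each of its uncountable subsets,
such that `L 2` and `2 L` embed in `L`, then there is an untranscendable order as in Q1.
(2) `♢` implies that there is an untranscendable order as in Q1. -/
theorem result :
    (∀ (L : Type) [LinearOrder L], Cardinal.mk L = Cardinal.aleph 1 →
      (∀ K : Set L, ¬ K.Countable → Nonempty (L ↪o K)) → Nonempty ((Fin 2 ×ₗ L) ↪o L) →
      Nonempty ((L ×ₗ Fin 2) ↪o L) → PositiveAnswer) ∧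
    (Diamond → PositiveAnswer) := by
  refine ⟨fun L _ hc hmin ⟨q₀⟩ ⟨d⟩ => ?_, fun h => ?_⟩
  · have hLu : Uncountable L := by
      rw [← Cardinal.aleph0_lt_mk_iff, hc]
      exact Cardinal.aleph0_lt_aleph_one
    obtain ⟨α⟩ : Nonempty (L ↪ H635.Dia.W) := by
      rw [← Cardinal.le_def, hc, H635.Dia.mk_W]
    obtain ⟨q⟩ := H635.UT.square_of_doubles hLu hmin q₀ d
    exact main (H635.UT.lmp_of_square hLu hmin q) hLu α α.injective (H635.UT.mid_of_square hLu q)
  · obtain ⟨G, hG⟩ := H635.DM.guess h
    let b := H635.DM.bx G ∅
    have hcap : H635.DM.Cap b := H635.DM.capture hG ∅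
    have hL : H635.UT.LMP (H635.DM.Ln b) := fun S hS hS2 β => H635.DM.lm hcap S hS hS2 β
    obtain ⟨α⟩ : Nonempty (H635.DM.Ln b ↪ H635.Dia.W) := by
      rw [← Cardinal.le_def]
      exact H635.DM.mk_Ln
    exact main hL H635.DM.uncountable_Ln α α.injective H635.DM.exists_mid

end Pool.Agent.Results.MP_6cb7ce_lc.UntranscendableFromDiamond
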